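import Pool.Agent.H34.PolyRem.Upper
import Pool.Agent.H34.PolyRem.Lower

set_option autoImplicit false

namespace Pool.Agent.Results.MP_ef19fe_co.ThresholdBetween

open Pool.Agent.H34.PolyRem

/-- There is a graph whose polynomial removal threshold lies strictly between 1/5 and 1/3. -/
theorem result : ∃ H : SimpleGraph (Fin 9), (1 / 5 : ℝ) < polyRemThreshold H ∧
    polyRemThreshold H < 1 / 3 := by
  refine ⟨H9, ?_, ?_⟩
  · have h : (8 / 39 : ℝ) ≤ polyRemThreshold H9 := by
      refine le_csInf ⟨33 / 100, by norm_num, by norm_num, polyRemovable_H9⟩ ?_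
      rintro γ ⟨_, _, hγ⟩
      by_contra hlt
      exact not_polyRemovable γ (not_le.mp hlt) hγ
    refine lt_of_lt_of_le (by norm_num) h
  · have h : polyRemThreshold H9 ≤ 33 / 100 :=
      csInf_le ⟨0, fun γ hγ => hγ.1⟩ ⟨by norm_num, by norm_num, polyRemovable_H9⟩
    refine lt_of_le_of_lt h (by norm_num)

end Pool.Agent.Results.MP_ef19fe_co.ThresholdBetween
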